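import Pool.Agent.Q39.Bhargava

/-!
# The proposed formula for the Bhargava factorial of the primes in prime triplets fails at `n = 28`

The prime `29` belongs to no triplet `(p, p+2, p+6)`, so `29` divides `28!_{P_3}`; but the set of
all primes meets every class modulo `29`, so `29` does not divide `28!_P`, nor
`3! w_2(28) w_3(28) 28!_P`.
-/

set_option autoImplicit false

namespace Pool.Agent.Results.MP_1b3ee4_nt.TripletIdentityFails

open Pool.Agent.Q39.Bhargava

/-- The set of the primes, as a set of integers. -/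
def primeSet : Set ℤ := {x | ∃ q : ℕ, q.Prime ∧ x = q}

/-- The set of the primes which are one of `p`, `p + 2`, `p + 6` for some `p` such that all of
`p`, `p + 2`, `p + 6` are prime. -/
def tripletPrimes : Set ℤ := {x | ∃ p : ℕ, p.Prime ∧ (p + 2).Prime ∧ (p + 6).Prime ∧
  (x = p ∨ x = p + 2 ∨ x = p + 6)}

/-- `w p m`, the largest power of `p` dividing `m`. -/
def w (p m : ℕ) : ℕ := p ^ padicValNat p m

lemma dvd_prime {q p : ℕ} (hq : q.Prime) (hp : p.Prime) (h : (q : ℤ) ∣ (p : ℤ)) : p = q := by
  have h1 : q ∣ p := by exact_mod_cast h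
  exact ((Nat.prime_dvd_prime_iff_eq hq hp).1 h1).symm

lemma triplet_missing : ∀ x ∈ tripletPrimes, ¬ ((29 : ℕ) : ℤ) ∣ x := by
  rintro x ⟨p, h0, h2, h6, h⟩ hd
  rcases h with rfl | rfl | rfl
  · have h := dvd_prime (by norm_num) h0 hd
    subst h
    revert h6; norm_num
  · have h := dvd_prime (q := 29) (p := p + 2) (by norm_num) h2 (by push_cast; exact_mod_cast hd)
    have hp : p = 27 := by omega
    subst hp
    revert h0; norm_num
  · have h := dvd_prime (q := 29) (p := p + 6) (by norm_num) h6 (by push_cast; exact_mod_cast hd)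
    have hp : p = 23 := by omega
    subst hp
    revert h2; norm_num

/-- Primes representing all classes modulo `29`. -/
def reps : List ℕ := [
  29, 59, 2, 3, 149, 5, 151, 7, 37, 67, 97, 11, 41, 13, 43, 73, 103, 17, 47, 19, 107, 79,
      109, 23, 53, 83, 113, 317, 173]

lemma primes_full : ∀ r : ZMod 29, ∃ x ∈ primeSet, ((x : ℤ) : ZMod 29) = r := by
  have key : ∀ m < 29, ∃ q ∈ reps, q % 29 = m := by decide
  have hpr : ∀ q ∈ reps, Nat.Prime q := by
    intro q hq
    simp only [reps, List.mem_cons, List.not_mem_nil, or_false] at hq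
    rcases hq with rfl | rfl | rfl | rfl | rfl | rfl | rfl | rfl | rfl | rfl | rfl | rfl | rfl | rfl | rfl | rfl | rfl | rfl | rfl | rfl | rfl | rfl | rfl | rfl | rfl | rfl | rfl | rfl | rfl <;> norm_num
  intro r
  obtain ⟨q, hq, hqr⟩ := key r.val (ZMod.val_lt r)
  refine ⟨(q : ℤ), ⟨q, hpr q hq, rfl⟩, ?_⟩
  have h1 : ((q : ℕ) : ZMod 29) = ((r.val : ℕ) : ZMod 29) := by
    rw [← hqr, ZMod.natCast_mod]
  have h2 : ((r.val : ℕ) : ZMod 29) = r := by
    exact ZMod.natCast_zmod_val r
  push_cast
  rw [h1, h2]

/-- The first `29` elements of the set. -/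
def tripletList : Finset ℕ := {
  5, 7, 11, 13, 17, 19, 23, 41, 43, 47, 101, 103, 107, 109, 113, 191, 193, 197, 227, 229,
      233, 311, 313, 317, 347, 349, 353, 461, 463}

lemma tripletList_mem : ∀ q ∈ tripletList, ∃ p : ℕ, p.Prime ∧ (p + 2).Prime ∧ (p + 6).Prime ∧
    (q = p ∨ q = p + 2 ∨ q = p + 6) := by
  intro q hq
  simp only [tripletList, Finset.mem_insert, Finset.mem_singleton] at hq
  rcases hq with rfl | rfl | rfl | rfl | rfl | rfl | rfl | rfl | rfl | rfl | rfl | rfl | rfl | rfl | rfl | rfl | rfl | rfl | rfl | rfl | rfl | rfl | rfl | rfl | rfl | rfl | rfl | rfl | rfl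
  · exact ⟨5, by norm_num, by norm_num, by norm_num, by norm_num⟩
  · exact ⟨5, by norm_num, by norm_num, by norm_num, by norm_num⟩
  · exact ⟨11, by norm_num, by norm_num, by norm_num, by norm_num⟩
  · exact ⟨11, by norm_num, by norm_num, by norm_num, by norm_num⟩
  · exact ⟨17, by norm_num, by norm_num, by norm_num, by norm_num⟩
  · exact ⟨17, by norm_num, by norm_num, by norm_num, by norm_num⟩
  · exact ⟨17, by norm_num, by norm_num, by norm_num, by norm_num⟩
  · exact ⟨41, by norm_num, by norm_num, by norm_num, by norm_num⟩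
  · exact ⟨41, by norm_num, by norm_num, by norm_num, by norm_num⟩
  · exact ⟨41, by norm_num, by norm_num, by norm_num, by norm_num⟩
  · exact ⟨101, by norm_num, by norm_num, by norm_num, by norm_num⟩
  · exact ⟨101, by norm_num, by norm_num, by norm_num, by norm_num⟩
  · exact ⟨107, by norm_num, by norm_num, by norm_num, by norm_num⟩
  · exact ⟨107, by norm_num, by norm_num, by norm_num, by norm_num⟩
  · exact ⟨107, by norm_num, by norm_num, by norm_num, by norm_num⟩
  · exact ⟨191, by norm_num, by norm_num, by norm_num, by norm_num⟩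
  · exact ⟨191, by norm_num, by norm_num, by norm_num, by norm_num⟩
  · exact ⟨191, by norm_num, by norm_num, by norm_num, by norm_num⟩
  · exact ⟨227, by norm_num, by norm_num, by norm_num, by norm_num⟩
  · exact ⟨227, by norm_num, by norm_num, by norm_num, by norm_num⟩
  · exact ⟨227, by norm_num, by norm_num, by norm_num, by norm_num⟩
  · exact ⟨311, by norm_num, by norm_num, by norm_num, by norm_num⟩
  · exact ⟨311, by norm_num, by norm_num, by norm_num, by norm_num⟩
  · exact ⟨311, by norm_num, by norm_num, by norm_num, by norm_num⟩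
  · exact ⟨347, by norm_num, by norm_num, by norm_num, by norm_num⟩
  · exact ⟨347, by norm_num, by norm_num, by norm_num, by norm_num⟩
  · exact ⟨347, by norm_num, by norm_num, by norm_num, by norm_num⟩
  · exact ⟨461, by norm_num, by norm_num, by norm_num, by norm_num⟩
  · exact ⟨461, by norm_num, by norm_num, by norm_num, by norm_num⟩

lemma triplet_encard : ((28 : ℕ) : ℕ∞) < tripletPrimes.encard := by
  have h1 : ((tripletList.image (fun q : ℕ => (q : ℤ)) : Finset ℤ) : Set ℤ) ⊆ tripletPrimes := by
    intro x hx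
    simp only [Finset.coe_image, Set.mem_image, Finset.mem_coe] at hx
    obtain ⟨q, hq, rfl⟩ := hx
    obtain ⟨p, h0, h2, h6, h⟩ := tripletList_mem q hq
    refine ⟨p, h0, h2, h6, ?_⟩
    rcases h with rfl | rfl | rfl
    · left; rfl
    · right; left; push_cast; rfl
    · right; right; push_cast; rfl
  have h2 := Set.encard_le_encard h1
  rw [Set.encard_coe_eq_coe_finsetCard] at h2
  have h3 : (tripletList.image (fun q : ℕ => (q : ℤ))).card = 29 := by
    rw [Finset.card_image_of_injective _ Nat.cast_injective]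
    rfl
  rw [h3] at h2
  exact lt_of_lt_of_le (by exact_mod_cast (by norm_num : 28 < 29)) h2

lemma primes_encard : ((28 : ℕ) : ℕ∞) < primeSet.encard := by
  refine lt_of_lt_of_le triplet_encard (Set.encard_le_encard ?_)
  rintro x ⟨p, h0, h2, h6, h⟩
  rcases h with rfl | rfl | rfl
  · exact ⟨p, h0, rfl⟩
  · exact ⟨p + 2, h2, by push_cast; rfl⟩
  · exact ⟨p + 6, h6, by push_cast; rfl⟩

/-- The proposed identity for `n!_{P_3} / n!_P` fails for `n = 28`, where both factorials are
defined. -/
theorem result :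
    (∃ F, IsFactorial primeSet 28 F) ∧ (∃ G, IsFactorial tripletPrimes 28 G) ∧
    (∀ F G, IsFactorial primeSet 28 F → IsFactorial tripletPrimes 28 G →
      G ≠ 6 * w 2 28 * w 3 28 * F) ∧
    ¬ (∀ n : ℕ, 1 ≤ n → ∀ F G, IsFactorial primeSet n F → IsFactorial tripletPrimes n G →
      (G : ℚ) / (F : ℚ) = if Even n then 6 * (w 2 n : ℚ) * (w 3 n : ℚ) else 2) := by
  have hw2 : w 2 28 = 4 := by
    unfold w
    have : padicValNat 2 28 = 2 := by
      have h : (28 : ℕ) = 2 ^ 2 * 7 := by norm_num
      rw [h, padicValNat.mul (by norm_num) (by norm_num), padicValNat.prime_pow,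
        padicValNat.eq_zero_of_not_dvd (by norm_num)]
    rw [this]; norm_num
  have hw3 : w 3 28 = 1 := by
    unfold w
    rw [padicValNat.eq_zero_of_not_dvd (by norm_num), pow_zero]
  have key : ∀ F G, IsFactorial primeSet 28 F → IsFactorial tripletPrimes 28 G →
      G ≠ 6 * w 2 28 * w 3 28 * F := by
    intro F G hF hG
    exact ne_of_missing_full (q := 29) (by norm_num) triplet_missing primes_full hG hF
      (by rw [hw2, hw3]; norm_num)
  refine ⟨exists_factorial primes_encard, exists_factorial triplet_encard, key, ?_⟩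
  intro h
  obtain ⟨F, hF⟩ := exists_factorial primes_encard
  obtain ⟨G, hG⟩ := exists_factorial triplet_encard
  apply key F G hF hG
  have h1 := h 28 (by norm_num) F G hF hG
  have hF0 : (F : ℚ) ≠ 0 := by exact_mod_cast hF.2.1.ne'
  rw [div_eq_iff hF0, if_pos (by decide)] at h1
  exact_mod_cast h1

end Pool.Agent.Results.MP_1b3ee4_nt.TripletIdentityFails
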